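import Mathlib
import Pool.Agent.H20.ACDef
import Pool.Agent.H20.AC4

set_option autoImplicit false

namespace Pool.Agent.Results.MP_71c9ee_al.NotGAC

open Pool.Agent.H20.AC

theorem result (k : ℕ) (hk : 2 ≤ k) :
    ∃ (G : Type) (_ : Group G), Group.FG G ∧ commutator G = ⊤ ∧
      ∃ U V : Fin k → G, Subgroup.normalClosure (Set.range U) = ⊤ ∧
        Subgroup.normalClosure (Set.range V) = ⊤ ∧
        ACEquiv (fun i => Abelianization.of (U i)) (fun i => Abelianization.of (V i)) ∧
        ¬ ACEquiv U V ∧ ¬ ACEquiv V U :=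
  main k (by omega)

end Pool.Agent.Results.MP_71c9ee_al.NotGAC
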